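import Pool.Agent.Lib.MP_688fd0_co.TE.H94.Resm

/-!
# Theorem E, module LEVM: the models LEV
-/

namespace Pool.Agent.Lib.MP_688fd0_co.TE.H94

universe u

open Matrix

theorem sum_ind_eq {α : Type*} [Fintype α] (w : α) : ∑ u : α, ind (u = w) = 1 := by
  rw [Finset.sum_eq_single w]
  · exact ind_of rfl
  · intro v _ hv
    exact ind_not hv
  · intro h; exact absurd (Finset.mem_univ _) h

theorem levm (h1 : KER_S.{u}) (h2 : NUM_S.{u}) : LEVM_S.{u} := by
  intro G _ _ _ c τ m _ i0 hm1 hm2
  obtain ⟨hX, hkT, hka, hTT⟩ := numX h2 c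
  obtain ⟨-, -, -, hkL, hkev, hk32, hq0, hb0, hbX, hbn, hqb, hnT, hen, -⟩ := h2 G c
  have hX0 : (0 : ℝ) < c.X := by linarith
  have hX1 : (1 : ℝ) ≤ c.X := by linarith
  have hb1 : (1 : ℝ) ≤ c.b := by
    have := one_le_pow₀ hX1 (n := 200000)
    linarith
  have hk1 := c.hk1
  have hr1 := c.hr1
  have hX5 : (1 : ℝ) ≤ c.X ^ 5 := one_le_pow₀ hX1
  have hm0 : (1 : ℝ) ≤ m := (one_le_pow₀ hX1).trans hm1
  have hm00 : (0 : ℝ) < m := by linarith
  have hcard : (Fintype.card (ZMod m) : ℝ) = m := by rw [ZMod.card]
  have hsum : ∑ _e : ZMod m, 1 / c.X ^ 5 / (m : ℝ) = 1 / c.X ^ 5 := by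
    rw [Finset.sum_const, Finset.card_univ, nsmul_eq_mul, hcard]
    field_simp
  have hr5 : 1 / c.X ^ 5 ≤ 1 := by
    rw [div_le_one (by positivity)]; exact hX5
  let M : LM G (ZMod m) (6 * c.k) :=
    { jc := 3 * c.k
      P := fun _ _ => 1 / c.X ^ 5 / m
      ex := fun u _ => u
      C := fun j => cO c.B c.C τ (j + 1)
      kap := fun j _ l => ind (l = if Even j then i0 + 1 else i0)
      sp := fun j => (τ = true → ¬ 3 ∣ (j + 1))
      H0 := m / (1 / c.X ^ 5)
      b := c.b
      pt := 1 / c.X ^ 5
      hjc := by omega
      hb := hb1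
      hH0 := by
        rw [le_div_iff₀ (by positivity)]
        linarith
      hP0 := fun u e => by positivity
      hP1 := fun u => by rw [hsum]; exact hr5
      hk0 := fun j u e => ind_nonneg _
      hkH := fun j u e => by
        have : (m : ℝ) / (1 / c.X ^ 5) * (1 / c.X ^ 5 / m) = 1 := by field_simp
        rw [this]
        exact ind_le_one _
      hk1 := fun j u => by rw [sum_ind_eq]
      hC0 := fun j u v => (co_ds h1 c τ _).nn _ _
      hCr := fun j u => ((co_ds h1 c τ _).row u).le
      hCc := fun j v => ((co_ds h1 c τ _).col v).le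
      hM := fun j v => by
        simp only [← Finset.sum_mul, sum_ind_eq, one_mul]
        exact ((co_ds h1 c τ _).col v).le
      hpt := fun w => by
        simp only [or_self, ← Finset.sum_mul, hsum]
        rw [← Finset.mul_sum, sum_ind_eq, mul_one]
      hpt1 := hr5
      hsp := fun j u v hj => by
        cases τ
        · have : cO c.B c.C false (j + 1) = UM c.B := by
            unfold cO WM
            simp
          rw [this]
          exact um_le _ _ _
        · have hj' : ¬ 3 ∣ (j + 1) := hj rfl
          simp only [cO, hj', if_false]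
          exact um_le _ _ _
      hsp0 := by intro _; norm_num
      hspa := by intro _; omega
      hspc := by intro _; omega
      hspc' := by intro _; omega
      hsp2 := fun j _ => by
        by_cases h : 3 ∣ (j + 1)
        · right; intro _; omega
        · left; intro _; exact h }
  have hfk : ∀ r i x y, M.fk i r x y = c.K τ true i (r + 1) x y := by
    intro r
    induction r with
    | zero =>
      intro i x y
      show cO c.B c.C τ (i + 1) x y = _
      rw [k_one]
    | succ r ih =>
      intro i x y
      rw [fk_succ]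
      have h3 : c.K τ true i (r + 1 + 1) = c.K τ true i 1 * c.K τ true (i + 1) (r + 1) := by
        have h4 := (h1 G c τ true).2.1 i 1 (r + 1)
        rw [← h4]
        congr 1
        ring
      rw [h3, k_one, Matrix.mul_apply]
      refine Finset.sum_congr rfl fun u _ => ?_
      have h5 : ∀ e : ZMod m, M.C i x u * M.kap i u e * M.fk (i + 1) r (M.ex u e) y =
          cO c.B c.C τ (i + 1) x u * ind (e = if Even i then i0 + 1 else i0) *
            c.K τ true (i + 1) (r + 1) u y := by
        intro e
        rw [ih]
      simp only [h5]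
      rw [← Finset.sum_mul, ← Finset.mul_sum, sum_ind_eq, mul_one]
  refine ⟨M, ?_, ?_, ?_, fun i r x y _ => hfk r i x y⟩
  · exact
      { jc := rfl
        P := fun u t => rfl
        ex := fun u t => rfl
        C := fun j u v => rfl
        kap := fun j u t => rfl
        H0 := rfl
        b := rfl
        pt := rfl
        sp := fun j => Iff.rfl }
  · exact
      { n1 := by
          have : 0 < Fintype.card G := Fintype.card_pos
          exact_mod_cast this
        X1 := hX
        aX := by
          refine le_trans (le_of_eq ?_) hka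
          push_cast
          ring
        TX := hTT
        T1 := c.hT1
        q0 := c.hq τ
        q1 := hqb τ
        bX := hbX
        bn := hbn
        HX := by
          show (m : ℝ) / (1 / c.X ^ 5) ≤ 2 * c.X ^ 3000
          rw [div_div_eq_mul_div, div_one]
          calc (m : ℝ) * c.X ^ 5 ≤ (2 * c.X ^ 1000) * c.X ^ 5 := by gcongr
            _ = 2 * c.X ^ 1005 := by rw [mul_assoc, ← pow_add]
            _ ≤ 2 * c.X ^ 3000 := by
                have := pow_le_pow_right₀ hX1 (show 1005 ≤ 3000 by norm_num)
                linarith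
        r1 := c.hr0
        nT := hnT
        en := hen
        ptX := by
          show 8 * ((6 * c.k : ℕ) : ℝ) ^ 2 * c.T * (1 / c.X ^ 5) ≤ 1 / c.X ^ 4
          push_cast
          calc 8 * (6 * (c.k : ℝ)) ^ 2 * c.T * (1 / c.X ^ 5)
              = (288 * (c.k : ℝ) ^ 2 * c.T) * (1 / c.X ^ 5) := by ring
            _ ≤ c.X * (1 / c.X ^ 5) := by
                apply mul_le_mul_of_nonneg_right _ (by positivity)
                have : (0 : ℝ) ≤ (c.k : ℝ) ^ 2 * c.T := by positivity
                nlinarith
            _ = 1 / c.X ^ 4 := by field_simp }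
  · have hL4 : 4 ≤ c.L0 := by unfold Ctx.L0; omega
    have h3 : (c.r0 + 2) * (c.L0 + 1) + 1 ≤ 3 * c.k := by
      refine le_trans ?_ hkL
      have h5 : 1 * 4 ≤ c.r0 * c.L0 := Nat.mul_le_mul hr1 hL4
      have h6 : c.r0 * 4 ≤ c.r0 * c.L0 := Nat.mul_le_mul_left _ hL4
      nlinarith
    exact
      { s1 := fun i r x y hir hr => by
          rcases Nat.eq_zero_or_pos r with h4 | h4
          · subst h4
            have h5 : M.sp i := hr.resolve_left (by norm_num)
            exact M.hsp i x y h5
          · rw [hfk]
            exact (h1 G c τ true).2.2.1 _ _ _ _ (by omega)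
        s2 := fun i r x y hir hr => by
          rw [hfk]
          exact (h1 G c τ true).2.2.2.1 _ _ _ _ (by omega)
        s3 := by
          show (c.r0 + 2) * (c.L0 + 1) ≤ 3 * c.k
          omega
        s4 := by
          show (c.r0 + 2) * (c.L0 + 1) ≤ 6 * c.k - 3 * c.k - 1
          omega }

end Pool.Agent.Lib.MP_688fd0_co.TE.H94
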