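import Pool.Agent.Lib.MP_688fd0_co.TE.Iface4

/-!
# Theorem E, module RESM: the model RES
-/

namespace Pool.Agent.Lib.MP_688fd0_co.TE.H94

universe u

open Matrix

section

variable {G : Type u} [Group G] [Fintype G] [DecidableEq G]

theorem um_nonneg (S : Finset G) (x y : G) : 0 ≤ UM S x y := by
  unfold UM
  exact div_nonneg (ind_nonneg _) (Nat.cast_nonneg _)

theorem um_le (S : Finset G) (x y : G) : UM S x y ≤ 1 / (S.card : ℝ) := by
  unfold UM
  exact div_le_div_of_nonneg_right (ind_le_one _) (Nat.cast_nonneg _)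

theorem um_le_wm (B C : Finset G) (τ : Bool) (x y : G) : UM B x y ≤ 2 * WM B C τ x y := by
  cases τ
  · simp only [WM, Bool.false_eq_true, if_false]
    have := um_nonneg B x y
    linarith
  · simp only [WM, if_true, Matrix.smul_apply, Matrix.add_apply, smul_eq_mul]
    have := um_nonneg B x y
    have := um_nonneg C x y
    linarith

theorem wm_nonneg (B C : Finset G) (τ : Bool) (x y : G) : 0 ≤ WM B C τ x y := by
  have h1 := um_le_wm B C τ x y
  have h2 := um_nonneg B x y
  linarith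

theorem co_le_wm (B C : Finset G) (τ : Bool) (p : ℕ) (x y : G) :
    cO B C τ p x y ≤ 2 * WM B C τ x y := by
  unfold cO
  split
  · have := wm_nonneg B C τ x y
    linarith
  · exact um_le_wm B C τ x y

theorem cc_true (c : Ctx G) (τ : Bool) : c.cc τ true = cO c.B c.C τ := by
  simp [Ctx.cc]

theorem co_ds (h1 : KER_S.{u}) (c : Ctx G) (τ : Bool) (p : ℕ) : DS (cO c.B c.C τ p) := by
  have := (h1 G c τ true).2.2.2.2.2.2.2.1 p
  rwa [cc_true] at this

theorem k_one (c : Ctx G) (τ : Bool) (i : ℕ) : c.K τ true i 1 = cO c.B c.C τ (i + 1) := by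
  simp [Ctx.K, Kn, cc_true]

theorem co_inv (h1 : KER_S.{u}) (c : Ctx G) (τ : Bool) (p : ℕ) : Inv (cO c.B c.C τ (p + 1)) := by
  have := ((h1 G c τ true).1 p 1).2
  rwa [k_one] at this

theorem wm_ds (h1 : KER_S.{u}) (c : Ctx G) (τ : Bool) : DS (WM c.B c.C τ) := by
  have := co_ds h1 c τ 3
  simpa [cO] using this

theorem wm_inv (h1 : KER_S.{u}) (c : Ctx G) (τ : Bool) : Inv (WM c.B c.C τ) := by
  have := co_inv h1 c τ 2
  simpa [cO] using this

/-- change of variables `w = u t` -/
theorem sum_shift (M : Matrix G G ℝ) (hM : Inv M) (F : G → ℝ) (u : G) :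
    ∑ t, M 1 t * F (u * t) = ∑ w, M u w * F w := by
  rw [← Equiv.sum_comp (Equiv.mulLeft u) (fun w => M u w * F w)]
  refine Finset.sum_congr rfl fun t _ => ?_
  simp only [Equiv.coe_mulLeft]
  have := hM u 1 t
  rw [mul_one] at this
  rw [this]

theorem fk_succ {V : Type*} {Val : Type*} [Fintype V] [Fintype Val] [DecidableEq V] {a : ℕ}
    (M : LM V Val a) (i r : ℕ) (x y : V) :
    M.fk i (r + 1) x y = ∑ u, ∑ e, M.C i x u * M.kap i u e * M.fk (i + 1) r (M.ex u e) y := by
  have key : ∀ (n : ℕ) (t : ℝ) (F : List (V × Val) → ℝ),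
      sumL n (fun l => t * F l) = t * sumL n F := by
    intro n
    induction n with
    | zero => intro t F; rfl
    | succ n ih =>
      intro t F
      simp only [sumL]
      rw [Finset.mul_sum]
      exact Finset.sum_congr rfl fun s _ => ih t _
  unfold LM.fk
  simp only [sumL, LM.pw]
  rw [Fintype.sum_prod_type]
  refine Finset.sum_congr rfl fun u _ => Finset.sum_congr rfl fun e _ => ?_
  exact key r _ _

/-- numerics -/
theorem numX (h2 : NUM_S.{u}) (c : Ctx G) :
    (10 ^ 6 : ℝ) ≤ c.X ∧ 300 * (c.k : ℝ) ^ 2 * c.T ≤ c.X ∧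
      (10 ^ 6 * (6 * (c.k : ℝ) + 1)) ^ 20 ≤ c.X ∧ (10 ^ 6 * (c.T : ℝ)) ^ 20 ≤ c.X := by
  obtain ⟨hX, hk, hT, -⟩ := h2 G c
  have hk1 : (1 : ℝ) ≤ c.k := by exact_mod_cast c.hk1
  have hT1 : (1 : ℝ) ≤ c.T := by exact_mod_cast c.hT1
  refine ⟨hX, ?_, ?_, ?_⟩
  · -- A^2 B
    have hA : (1 : ℝ) ≤ 10 ^ 6 * c.k := by nlinarith
    have hB : (1 : ℝ) ≤ 10 ^ 6 * c.T := by nlinarith
    rcases le_total (c.k : ℝ) c.T with h | h
    · calc 300 * (c.k : ℝ) ^ 2 * c.T ≤ 300 * (c.T : ℝ) ^ 2 * c.T := by gcongr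
        _ ≤ (10 ^ 6 * (c.T : ℝ)) ^ 3 := by
            have : 0 ≤ (c.T : ℝ) ^ 3 := by positivity
            nlinarith
        _ ≤ (10 ^ 6 * (c.T : ℝ)) ^ 200 := pow_le_pow_right₀ hB (by norm_num)
        _ ≤ c.X := hT
    · calc 300 * (c.k : ℝ) ^ 2 * c.T ≤ 300 * (c.k : ℝ) ^ 2 * c.k := by gcongr
        _ ≤ (10 ^ 6 * (c.k : ℝ)) ^ 3 := by
            have : 0 ≤ (c.k : ℝ) ^ 3 := by positivity
            nlinarith
        _ ≤ (10 ^ 6 * (c.k : ℝ)) ^ 200 := pow_le_pow_right₀ hA (by norm_num)
        _ ≤ c.X := hk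
  · have hA : (1 : ℝ) ≤ 10 ^ 6 * c.k := by nlinarith
    calc (10 ^ 6 * (6 * (c.k : ℝ) + 1)) ^ 20 ≤ ((10 ^ 6 * (c.k : ℝ)) ^ 2) ^ 20 := by
          have h3 : 10 ^ 6 * (6 * (c.k : ℝ) + 1) ≤ (10 ^ 6 * (c.k : ℝ)) ^ 2 := by nlinarith
          have h4 : 0 ≤ 10 ^ 6 * (6 * (c.k : ℝ) + 1) := by positivity
          exact pow_le_pow_left₀ h4 h3 20
      _ = (10 ^ 6 * (c.k : ℝ)) ^ 40 := by rw [← pow_mul]
      _ ≤ (10 ^ 6 * (c.k : ℝ)) ^ 200 := pow_le_pow_right₀ hA (by norm_num)
      _ ≤ c.X := hk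
  · have hB : (1 : ℝ) ≤ 10 ^ 6 * c.T := by nlinarith
    calc (10 ^ 6 * (c.T : ℝ)) ^ 20 ≤ (10 ^ 6 * (c.T : ℝ)) ^ 200 :=
          pow_le_pow_right₀ hB (by norm_num)
      _ ≤ c.X := hT

theorem zeta_le (c : Ctx G) (τ : Bool) (hX : (10 ^ 6 : ℝ) ≤ c.X) :
    0 < c.ζ τ ∧ c.ζ τ ≤ 1 / c.X ^ 400 ∧ 2 / c.ζ τ ≤ 2 * c.X ^ 3000 := by
  have h0 : (0 : ℝ) < c.X := by linarith
  have h1 : (1 : ℝ) ≤ c.X := by linarith
  cases τ
  · simp only [Ctx.ζ, Bool.false_eq_true, if_false]
    refine ⟨by positivity, le_refl _, ?_⟩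
    rw [div_div_eq_mul_div, div_one]
    have := pow_le_pow_right₀ h1 (show 400 ≤ 3000 by norm_num)
    linarith
  · simp only [Ctx.ζ, if_true]
    refine ⟨by positivity, ?_, ?_⟩
    · exact one_div_le_one_div_of_le (by positivity) (pow_le_pow_right₀ h1 (by norm_num))
    · rw [div_div_eq_mul_div, div_one]

end

theorem resm (h1 : KER_S.{u}) (h2 : NUM_S.{u}) : RESM_S.{u} := by
  intro G _ _ _ c τ
  obtain ⟨hX, hkT, hka, hTT⟩ := numX h2 c
  obtain ⟨-, -, -, hkL, hkev, hk32, hq0, hb0, hbX, hbn, hqb, hnT, hen, -⟩ := h2 G c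
  have hX0 : (0 : ℝ) < c.X := by linarith
  have hX1 : (1 : ℝ) ≤ c.X := by linarith
  obtain ⟨hz0, hz1, hz2⟩ := zeta_le c τ hX
  have hX400 : c.X ≤ c.X ^ 400 := by
    calc c.X = c.X ^ 1 := (pow_one _).symm
      _ ≤ c.X ^ 400 := pow_le_pow_right₀ hX1 (by norm_num)
  have hzh : c.ζ τ ≤ 1 / 10 ^ 6 := by
    refine hz1.trans (one_div_le_one_div_of_le (by norm_num) (hX.trans hX400))
  obtain ⟨k', hk'⟩ := hkev
  have hb1 : (1 : ℝ) ≤ c.b := by
    have := one_le_pow₀ hX1 (n := 200000)
    linarith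
  have hWd := wm_ds h1 c τ
  have hWi := wm_inv h1 c τ
  have hk1 := c.hk1
  have hr1 := c.hr1
  have hu1 : ∀ u : G, ∑ e, c.ζ τ * WM c.B c.C τ 1 e ≤ c.ζ τ := by
    intro u
    rw [← Finset.mul_sum, hWd.row, mul_one]
  let M : LM G G (3 * c.k) :=
    { jc := 3 * k' - 1
      P := fun _ t => c.ζ τ * WM c.B c.C τ 1 t
      ex := fun u t => u * t
      C := fun j => cO c.B c.C τ (2 * j + 1)
      kap := fun j _ t => cO c.B c.C τ (2 * j + 2) 1 t
      sp := fun j => ¬ 3 ∣ (2 * j + 1)
      H0 := 2 / c.ζ τ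
      b := c.b
      pt := 2 * c.ζ τ
      hjc := by omega
      hb := hb1
      hH0 := by
        rw [le_div_iff₀ hz0]
        linarith
      hP0 := fun u e => mul_nonneg hz0.le (wm_nonneg _ _ _ _ _)
      hP1 := fun u => (hu1 u).trans (by linarith)
      hk0 := fun j u e => (co_ds h1 c τ _).nn _ _
      hkH := fun j u e => by
        have := co_le_wm c.B c.C τ (2 * j + 2) 1 e
        calc cO c.B c.C τ (2 * j + 2) 1 e ≤ 2 * WM c.B c.C τ 1 e := this
          _ = 2 / c.ζ τ * (c.ζ τ * WM c.B c.C τ 1 e) := by field_simp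
      hk1 := fun j u => ((co_ds h1 c τ _).row 1).le
      hC0 := fun j u v => (co_ds h1 c τ _).nn _ _
      hCr := fun j u => ((co_ds h1 c τ _).row u).le
      hCc := fun j v => ((co_ds h1 c τ _).col v).le
      hM := fun j v => by
        have h3 : ∀ u : G, ∑ e, cO c.B c.C τ (2 * j + 2) 1 e * cO c.B c.C τ (2 * (j + 1) + 1) (u * e) v
            = ∑ w, cO c.B c.C τ (2 * j + 2) u w * cO c.B c.C τ (2 * (j + 1) + 1) w v := fun u =>
          sum_shift _ (co_inv h1 c τ _) (fun w => cO c.B c.C τ (2 * (j + 1) + 1) w v) u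
        simp only [h3]
        rw [Finset.sum_comm]
        simp only [← Finset.sum_mul, (co_ds h1 c τ (2 * j + 2)).col, one_mul,
          (co_ds h1 c τ (2 * (j + 1) + 1)).col]
        exact le_refl _
      hpt := fun w => by
        have h3 : ∀ u e : G, c.ζ τ * WM c.B c.C τ 1 e * ind (u = w ∨ u * e = w) ≤
            c.ζ τ * WM c.B c.C τ 1 e * ind (u = w) +
              c.ζ τ * (WM c.B c.C τ 1 e * ind (u * e = w)) := by
          intro u e
          have h4 : ind (u = w ∨ u * e = w) ≤ ind (u = w) + ind (u * e = w) := by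
            by_cases h5 : u = w
            · rw [ind_of h5]
              have := ind_le_one (u = w ∨ u * e = w)
              have := ind_nonneg (u * e = w)
              linarith
            · rw [ind_not h5]
              have : ind (u = w ∨ u * e = w) ≤ ind (u * e = w) :=
                ind_mono (fun h => h.resolve_left h5)
              linarith
          have h5 : 0 ≤ c.ζ τ * WM c.B c.C τ 1 e := mul_nonneg hz0.le (wm_nonneg _ _ _ _ _)
          nlinarith
        calc ∑ u, ∑ e, c.ζ τ * WM c.B c.C τ 1 e * ind (u = w ∨ u * e = w)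
            ≤ ∑ u, ∑ e, (c.ζ τ * WM c.B c.C τ 1 e * ind (u = w) +
              c.ζ τ * (WM c.B c.C τ 1 e * ind (u * e = w))) :=
              Finset.sum_le_sum fun u _ => Finset.sum_le_sum fun e _ => h3 u e
          _ = ∑ u, (c.ζ τ * ind (u = w) + c.ζ τ * WM c.B c.C τ u w) := by
              refine Finset.sum_congr rfl fun u _ => ?_
              rw [Finset.sum_add_distrib, ← Finset.sum_mul, ← Finset.mul_sum, hWd.row, mul_one,
                ← Finset.mul_sum, sum_shift _ hWi (fun v => ind (v = w)) u]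
              congr 2
              rw [Finset.sum_eq_single w]
              · rw [ind_of rfl, mul_one]
              · intro v _ hv
                rw [ind_not hv, mul_zero]
              · intro h; exact absurd (Finset.mem_univ _) h
          _ = 2 * c.ζ τ := by
              rw [Finset.sum_add_distrib, ← Finset.mul_sum, ← Finset.mul_sum, hWd.col]
              have : ∑ u : G, ind (u = w) = 1 := by
                rw [Finset.sum_eq_single w]
                · exact ind_of rfl
                · intro v _ hv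
                  exact ind_not hv
                · intro h; exact absurd (Finset.mem_univ _) h
              rw [this]
              ring
          _ ≤ 2 * c.ζ τ := le_refl _
      hpt1 := by linarith
      hsp := fun j u v hj => by
        simp only [cO, hj, if_false]
        exact um_le _ _ _
      hsp0 := by norm_num
      hspa := by omega
      hspc := by omega
      hspc' := by omega
      hsp2 := fun j _ => by omega }
  have hfk : ∀ r i x y, M.fk i r x y = c.K τ true (2 * i) (2 * r + 1) x y := by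
    intro r
    induction r with
    | zero =>
      intro i x y
      show cO c.B c.C τ (2 * i + 1) x y = _
      rw [k_one]
    | succ r ih =>
      intro i x y
      rw [fk_succ]
      have h3 : c.K τ true (2 * i) (2 * (r + 1) + 1) =
          c.K τ true (2 * i) 1 * (c.K τ true (2 * i + 1) 1 *
            c.K τ true (2 * (i + 1)) (2 * r + 1)) := by
        have h4 := (h1 G c τ true).2.1
        have e1 : 2 * (r + 1) + 1 = 1 + (1 + (2 * r + 1)) := by ring
        have e2 : 2 * (i + 1) = 2 * i + 1 + 1 := by ring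
        rw [e1, h4 (2 * i) 1, h4 (2 * i + 1) 1, e2]
      rw [h3, k_one, k_one, Matrix.mul_apply]
      refine Finset.sum_congr rfl fun u _ => ?_
      rw [Matrix.mul_apply, Finset.mul_sum,
        ← Finset.mul_sum _ (fun w => cO c.B c.C τ (2 * i + 1 + 1) u w *
          c.K τ true (2 * (i + 1)) (2 * r + 1) w y),
        ← sum_shift _ (co_inv h1 c τ (2 * i + 1))
          (fun w => c.K τ true (2 * (i + 1)) (2 * r + 1) w y) u, Finset.mul_sum]
      refine Finset.sum_congr rfl fun e _ => ?_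
      rw [ih]
      show cO c.B c.C τ (2 * i + 1) x u * cO c.B c.C τ (2 * i + 2) 1 e * _ = _
      rw [mul_assoc]
  refine ⟨M, ?_, ?_, ?_, fun i r x y _ => hfk r i x y⟩
  · exact
      { jc := by show 2 * (3 * k' - 1) + 2 = 3 * c.k; omega
        P := fun u t => rfl
        ex := fun u t => rfl
        C := fun j u v => rfl
        kap := fun j u t => rfl
        H0 := rfl
        b := rfl
        pt := rfl
        sp := fun j => Iff.rfl }
  · have hka3 : (10 ^ 6 * (((3 * c.k : ℕ) : ℝ) + 1)) ^ 20 ≤ c.X := by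
      refine le_trans ?_ hka
      have hk0 : (0 : ℝ) ≤ c.k := Nat.cast_nonneg _
      push_cast
      gcongr
      norm_num
    exact
      { n1 := by
          have : 0 < Fintype.card G := Fintype.card_pos
          exact_mod_cast this
        X1 := hX
        aX := hka3
        TX := hTT
        T1 := c.hT1
        q0 := c.hq τ
        q1 := hqb τ
        bX := hbX
        bn := hbn
        HX := hz2
        r1 := c.hr0
        nT := hnT
        en := hen
        ptX := by
          show 8 * ((3 * c.k : ℕ) : ℝ) ^ 2 * c.T * (2 * c.ζ τ) ≤ 1 / c.X ^ 4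
          push_cast
          have h5 : c.ζ τ ≤ 1 / c.X ^ 5 :=
            hz1.trans (one_div_le_one_div_of_le (by positivity)
              (pow_le_pow_right₀ hX1 (by norm_num)))
          calc 8 * (3 * (c.k : ℝ)) ^ 2 * c.T * (2 * c.ζ τ)
              = (144 * (c.k : ℝ) ^ 2 * c.T) * c.ζ τ := by ring
            _ ≤ c.X * (1 / c.X ^ 5) := by
                apply mul_le_mul _ h5 hz0.le hX0.le
                have : (0 : ℝ) ≤ (c.k : ℝ) ^ 2 * c.T := by positivity
                nlinarith
            _ = 1 / c.X ^ 4 := by field_simp }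
  · have hL4 : 4 ≤ c.L0 := by unfold Ctx.L0; omega
    have h3 : (c.r0 + 2) * (c.L0 + 1) ≤ 3 * k' - 1 := by
      have h4 : 2 * ((c.r0 + 2) * (c.L0 + 1)) + 2 ≤ 3 * c.k := by
        refine le_trans ?_ hkL
        have h5 : 1 * 4 ≤ c.r0 * c.L0 := Nat.mul_le_mul hr1 hL4
        have h6 : c.r0 * 4 ≤ c.r0 * c.L0 := Nat.mul_le_mul_left _ hL4
        nlinarith
      omega
    exact
      { s1 := fun i r x y hir hr => by
          rcases Nat.eq_zero_or_pos r with h4 | h4
          · subst h4
            have h5 : M.sp i := hr.resolve_left (by norm_num)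
            exact M.hsp i x y h5
          · rw [hfk]
            exact (h1 G c τ true).2.2.1 _ _ _ _ (by omega)
        s2 := fun i r x y hir hr => by
          rw [hfk]
          exact (h1 G c τ true).2.2.2.1 _ _ _ _ (by omega)
        s3 := h3
        s4 := by
          show (c.r0 + 2) * (c.L0 + 1) ≤ 3 * c.k - (3 * k' - 1) - 1
          omega }

end Pool.Agent.Lib.MP_688fd0_co.TE.H94
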